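import Mathlib

set_option autoImplicit false

open Complex

namespace Pool.Agent.Results.MP_8e2370_an.NotConvex

/-- `R(z) = ∑ α_l / (z - p_l)`. -/
noncomputable def R {k : ℕ} (α p : Fin k → ℝ) (z : ℂ) : ℂ := ∑ l, (α l : ℂ) / (z - p l)

/-- The open upper half of the circle with diameter `[a, b]`. -/
def upperHalf (a b : ℝ) : Set ℂ := {z | ‖z - ((a + b) / 2 : ℝ)‖ = (b - a) / 2 ∧ 0 < z.im}

/-- Signed area. -/
def det (u v w : ℂ) : ℝ := (v.re - u.re) * (w.im - u.im) - (v.im - u.im) * (w.re - u.re)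

theorem tri {S : Set ℂ} (hS : Convex ℝ S) {P Q D B : ℂ} (hP : P ∈ S) (hQ : Q ∈ S) (hD : D ∈ S)
    (h1 : 0 < det B Q D) (h2 : 0 < det P B D) (h3 : 0 < det P Q B) : B ∈ interior S := by
  refine mem_interior.2 ⟨{w | 0 < det w Q D ∧ 0 < det P w D ∧ 0 < det P Q w}, ?_, ?_, h1, h2, h3⟩
  · rintro w ⟨a1, a2, a3⟩
    have e : det w Q D + det P w D + det P Q w = det P Q D := by simp only [det]; ring
    have e0 : det P Q D ≠ 0 := by rw [← e]; positivity
    have := hS.sum_mem (t := Finset.univ) (w := ![det w Q D / det P Q D, det P w D / det P Q D,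
      det P Q w / det P Q D]) (z := ![P, Q, D])
      (fun i _ => by fin_cases i <;> simp <;> rw [← e] <;> positivity)
      (by simp [Fin.sum_univ_three, ← add_div, e, e0]) fun i _ => by fin_cases i <;> simpa
    convert this using 1
    apply Complex.ext <;> simp [Fin.sum_univ_three] <;> field_simp <;> simp only [det] <;> ring
  · unfold det
    refine IsOpen.and ?_ (IsOpen.and ?_ ?_) <;> exact isOpen_lt continuous_const (by fun_prop)

theorem result : ∃ p α : Fin 3 → ℝ, StrictMono p ∧ (∀ l, 0 < α l) ∧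
    ¬∃ S : Set ℂ, IsClosed S ∧ Convex ℝ S ∧ frontier S = R α p '' upperHalf (p 0) (p 1) := by
  refine ⟨![-1, 1, 2], ![1, 1, 100], ?_, fun l => by fin_cases l <;> simp, ?_⟩
  · refine Fin.strictMono_iff_lt_succ.2 fun i => ?_
    fin_cases i <;> simp
  rintro ⟨S, h1, h2, h3⟩
  have key : ∀ x y u v : ℝ, x ^ 2 + y ^ 2 = 1 → 0 < y →
      u = (x + 1) / ((x + 1) ^ 2 + y ^ 2) + (x - 1) / ((x - 1) ^ 2 + y ^ 2) +
        100 * (x - 2) / ((x - 2) ^ 2 + y ^ 2) →
      v = -y / ((x + 1) ^ 2 + y ^ 2) - y / ((x - 1) ^ 2 + y ^ 2) - 100 * y / ((x - 2) ^ 2 + y ^ 2) →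
      (⟨u, v⟩ : ℂ) ∈ frontier S := fun x y u v a1 a2 a3 a4 => by
    rw [h3]
    refine ⟨⟨x, y⟩, ⟨?_, a2⟩, ?_⟩
    · simp [Complex.norm_eq_sqrt_sq_add_sq, a1]
    · apply Complex.ext <;> simp [R, Fin.sum_univ_three, div_re, div_im, normSq_apply, a3, a4] <;>
        ring
  have a1 := key (99 / 101) (20 / 101) (-10300 / 109) (-51009 / 2180) (by norm_num) (by norm_num)
    (by norm_num) (by norm_num)
  have a2 := key (-12 / 13) (5 / 13) (-3800 / 113) (-3969 / 565) (by norm_num) (by norm_num)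
    (by norm_num) (by norm_num)
  have a3 := key (-39999 / 40001) (400 / 40001) (-12000100 / 360001) (-14416400001 / 144000400)
    (by norm_num) (by norm_num) (by norm_num) (by norm_num)
  have a4 := key (4 / 5) (3 / 5) (-200 / 3) (-35) (by norm_num) (by norm_num)
    (by norm_num) (by norm_num)
  exact a4.2 (tri h2 (h1.frontier_subset a1) (h1.frontier_subset a3) (h1.frontier_subset a2)
    (by norm_num [det]) (by norm_num [det]) (by norm_num [det]))

end Pool.Agent.Results.MP_8e2370_an.NotConvex
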